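import Mathlib
import Pool.Agent.R985.MLE
import Pool.Agent.R985.MLA
import Pool.Agent.R985.MLB
open MeasureTheory ProbabilityTheory Filter Topology R985.ML

namespace Pool.Agent.Results.MP_2724f6_pr.CubeNotMinimalDegreeFour

/-- The bound of Q1 for the degree `d`: there is `K` with `∫ f² dμ ≥ m_d(n) - K/n` for every
`n ≥ 1`, every isotropic log-concave `H_n`-invariant probability measure `μ` on `ℝⁿ` and every
degree-`d` homogeneous `f` with `coeff_d(f) = 1`. -/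
def Bound (d : ℕ) : Prop :=
  ∃ K : ℝ, ∀ n : ℕ, 1 ≤ n → ∀ μ : Measure (Fin n → ℝ), IsProbabilityMeasure μ →
    IsLogConcave μ → IsIsotropic μ → IsHnInvariant μ →
    ∀ f : MvPolynomial (Fin n) ℝ, f.IsHomogeneous d → coeffNorm f = 1 →
      mInf d n - K / n ≤ ∫ x, (MvPolynomial.eval x f) ^ 2 ∂μ

/-- For all large `n` there are an isotropic log-concave `H_n`-invariant `μ` on `ℝⁿ` and a quartic
form `f` with `coeff_4(f) = 1` and `∫ f² dμ ≤ m_4(n) - 9/100`; so Q1 fails, at `d = 4`. -/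
theorem result :
    (∀ᶠ n : ℕ in atTop, ∃ μ : Measure (Fin n → ℝ), IsProbabilityMeasure μ ∧ IsLogConcave μ ∧
      IsIsotropic μ ∧ IsHnInvariant μ ∧ ∃ f : MvPolynomial (Fin n) ℝ, f.IsHomogeneous 4 ∧
      coeffNorm f = 1 ∧ ∫ x, (MvPolynomial.eval x f) ^ 2 ∂μ ≤ mInf 4 n - 9 / 100) ∧
    ¬ Bound 4 ∧ ¬ (∀ d : ℕ, Bound d) := by
  have h := gap_of mInf_four_ge exists_measure
  have h4 : ¬ Bound 4 := by
    rintro ⟨K, hK⟩
    have tn : Tendsto (fun n : ℕ => K / (n:ℝ)) atTop (𝓝 0) :=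
      tendsto_natCast_atTop_atTop.const_div_atTop K
    obtain ⟨n, ⟨μ, a1, a2, a3, a4, f, a5, a6, a7⟩, h2, h3⟩ :=
      (h.and ((tn.eventually (gt_mem_nhds (by norm_num : (0:ℝ) < 9 / 100))).and
        (eventually_ge_atTop 1))).exists
    have := hK n h3 μ a1 a2 a3 a4 f a5 a6
    linarith
  exact ⟨h, h4, fun hall => h4 (hall 4)⟩

end Pool.Agent.Results.MP_2724f6_pr.CubeNotMinimalDegreeFour
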